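import Pool.Agent.V8H41.DG.Word

set_option autoImplicit false

/-!
# Every infinite word generated by iterating a dgsm is in GSPACE(√n)

Let `w` be the infinite word generated by iterating a non-erasing dgsm `τ` on a letter `a`. We show
that `w` is generated by a deterministic multi-tape machine with working space `O (√n)`.

This is a case of the following bound, which holds for every function `f`. Suppose that for every
`n ≥ 1` there is a stage `k` such that `|τ ^ (k + f n) (a)| ≥ n` and
`|τ ^ (k + 1) (a)| ≤ |τ ^ k (a)| + f n`. Then `w` is generated with working space `6 (f n + 1)`. With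
`k = 0` this is the bound by the number of stages (logarithmic for words of exponential growth),
with a large `k` it is the bound by the number of letters added in one stage (logarithmic for words
of growth `n log n`), and between these the machine stores the letters added in stage `k` and then
runs through all the later stages simultaneously.

The machine does not know `f` and does not know the lengths of the words.
-/

namespace Pool.Agent.Results.MP_5d512e_lc.HybridSpace

/-- The infinite word `w` is generated by a deterministic machine with finite control (`m + 1`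
states), `k` one-way infinite working tapes with `g + 1` symbols and a write-only output tape, which
starts with empty tapes, such that every cell visited before `n` letters are written on the output
tape is one of the first `s n` cells of its working tape. In the configuration `conf t`, the
components are the state, the contents of the tapes, the positions of the heads, and the output. -/
def Generates {d : ℕ} (w : ℕ → Fin d) (s : ℕ → ℕ) : Prop :=
  ∃ (m k g : ℕ)
    (δM : Fin (m+1) → (Fin k → Fin (g+1)) →
      Fin (m+1) × (Fin k → Fin (g+1)) × (Fin k → Fin 3) × Option (Fin d))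
    (conf : ℕ → Fin (m+1) × (Fin k → ℕ → Fin (g+1)) × (Fin k → ℕ) × List (Fin d)),
    conf 0 = (0, fun _ _ => 0, fun _ => 0, []) ∧
    (∀ t : ℕ, conf (t+1) =
      ((δM (conf t).1 (fun j => (conf t).2.1 j ((conf t).2.2.1 j))).1,
        fun j i => if i = (conf t).2.2.1 j
          then (δM (conf t).1 (fun j' => (conf t).2.1 j' ((conf t).2.2.1 j'))).2.1 j
          else (conf t).2.1 j i,
        fun j => (conf t).2.2.1 j
          + ((δM (conf t).1 (fun j' => (conf t).2.1 j' ((conf t).2.2.1 j'))).2.2.1 j : ℕ) - 1,
        (conf t).2.2.2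
          ++ ((δM (conf t).1 (fun j' => (conf t).2.1 j' ((conf t).2.2.1 j'))).2.2.2).toList)) ∧
    (∀ (t i : ℕ) (h : i < (conf t).2.2.2.length), (conf t).2.2.2[i] = w i) ∧
    (∀ n : ℕ, ∃ t : ℕ, n ≤ (conf t).2.2.2.length) ∧
    (∀ n t : ℕ, 1 ≤ n → (∀ t' < t, (conf t').2.2.2.length < n) →
      ∀ j : Fin k, (conf t).2.2.1 j + 1 ≤ s n)

/-- The image of the word `u` under the dgsm with transitions `δ`, initial state `q0` and outputs
`out`. -/
def dgsm {d p : ℕ} (δ : Fin p → Fin d → Fin p) (q0 : Fin p)
    (out : Fin p → Fin d → List (Fin d)) (u : List (Fin d)) : List (Fin d) :=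
  (List.foldl (fun (acc : Fin p × List (Fin d)) (x : Fin d) =>
    (δ acc.1 x, acc.2 ++ out acc.1 x)) (q0, []) u).2

/-- The infinite word `w` is generated by iterating `τ` on the letter `a`: `a` is a prefix of
`τ (a)`, the lengths of the words `τ ^ n (a)` are unbounded, and all these words are prefixes of
`w`. -/
def Iterates {d : ℕ} (τ : List (Fin d) → List (Fin d)) (a : Fin d) (w : ℕ → Fin d) : Prop :=
  [a] <+: τ [a] ∧ (∀ N : ℕ, ∃ n : ℕ, N ≤ (τ^[n] [a]).length) ∧
    ∀ (n i : ℕ) (h : i < (τ^[n] [a]).length), (τ^[n] [a])[i] = w i

theorem result :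
    ∀ (d p : ℕ) (δ : Fin p → Fin d → Fin p) (q0 : Fin p) (out : Fin p → Fin d → List (Fin d))
      (a : Fin d) (w : ℕ → Fin d),
      (∀ s x, out s x ≠ []) → Iterates (dgsm δ q0 out) a w →
      -- the word is generated in space `O (√n)`
      (∃ C : ℕ, Generates w (fun n => C * (Nat.sqrt n + 1))) ∧
      -- more generally, in space `6 (f n + 1)` for every `f` such that at some stage at most `f n`
      -- letters are added and the prefix of length `n` is complete `f n` stages later
      (∀ f : ℕ → ℕ,
        (∀ n : ℕ, 1 ≤ n → ∃ k : ℕ, n ≤ ((dgsm δ q0 out)^[k + f n] [a]).length ∧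
          ((dgsm δ q0 out)^[k + 1] [a]).length ≤ ((dgsm δ q0 out)^[k] [a]).length + f n) →
        Generates w (fun n => 6 * (f n + 1))) := by
  intro d p δ q0 out a w hne hw
  have key : ∀ f : ℕ → ℕ,
      (∀ n : ℕ, 1 ≤ n → ∃ k : ℕ, n ≤ ((dgsm δ q0 out)^[k + f n] [a]).length ∧
        ((dgsm δ q0 out)^[k + 1] [a]).length ≤ ((dgsm δ q0 out)^[k] [a]).length + f n) →
      V8H41.DG.Generates w (fun n => 4 * f n + 4 + 2) := by
    intro f hf
    exact V8H41.DG.space hne hw f hf
  have mono : ∀ s s' : ℕ → ℕ, V8H41.DG.Generates w s → (∀ n, s n ≤ s' n) → Generates w s' :=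
    fun s s' h h' => h.mono h'
  refine ⟨⟨4 * (out q0 a).tail.length + 6, ?_⟩, ?_⟩
  · refine mono _ _ (key (fun n => Nat.sqrt n + (out q0 a).tail.length) ?_) ?_
    · intro n _
      exact V8H41.DG.sqrt_bound hne hw n
    · intro n
      show 4 * (Nat.sqrt n + (out q0 a).tail.length) + 4 + 2 ≤
        (4 * (out q0 a).tail.length + 6) * (Nat.sqrt n + 1)
      nlinarith [Nat.zero_le (Nat.sqrt n * (out q0 a).tail.length), Nat.zero_le (Nat.sqrt n)]
  · intro f hf
    refine mono _ _ (key f hf) ?_
    intro n
    show 4 * f n + 4 + 2 ≤ 6 * (f n + 1)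
    omega

end Pool.Agent.Results.MP_5d512e_lc.HybridSpace
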