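import Pool.Agent.V8H44.LC.Main

set_option autoImplicit false

/-!
# One-sided context suffices

Q1 asks whether every infinite word generated by iterating a non-erasing dgsm is in GSPACE(log n).
A dgsm can carry information over arbitrarily long distances in one pass. We show that Q1 is
equivalent to the same question for purely local rewriting: every letter is replaced by a nonempty
word which depends on this letter and on its left neighbour only (the propagating deterministic
L systems with one-sided context of one letter). These are the dgsm's whose state is the last letter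
which has been read. If the word depends only on the letter itself, we have iterated morphisms.

Every word `w` generated by iterating a dgsm is obtained from a word `v` generated in this local way:
erase some letters of `v` and rename the others. The prefix of `w` of length `n` is obtained from a
prefix of `v` of length at most `C n ^ 2 + 1`. Hence a machine for `v` with working space `s n`
gives a machine for `w` with working space `s (C n ^ 2 + 1)`, and logarithmic space is transferred.

The idea. The word `w` is written by a process which reads the letters of `w` one by one, has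
finitely many states, and writes one letter of `w` in each step. A configuration consists of the
letters of `w` which have arrived at the end, a head with the state of the process, and the letters
which have been sent by the head and have not arrived. In each round these letters move to the right
by one position; the head sends a letter in every second round, and moves by at most one position in
two rounds. Therefore the letters do not collide, they arrive at the end in the right order, and
they are never late: the head never leaves the part of the word which has been written.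
-/

namespace Pool.Agent.Results.MP_5d512e_lc.LeftContext

/-- The infinite word `w` is generated by a deterministic machine with finite control (`m + 1`
states), `k` one-way infinite working tapes with `g + 1` symbols and a write-only output tape, which
starts with empty tapes, such that every cell visited before `n` letters are written on the output
tape is one of the first `s n` cells of its working tape. In the configuration `conf t`, the
components are the state, the contents of the tapes, the positions of the heads, and the output. -/
def Generates {d : ℕ} (w : ℕ → Fin d) (s : ℕ → ℕ) : Prop :=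
  ∃ (m k g : ℕ)
    (δM : Fin (m+1) → (Fin k → Fin (g+1)) →
      Fin (m+1) × (Fin k → Fin (g+1)) × (Fin k → Fin 3) × Option (Fin d))
    (conf : ℕ → Fin (m+1) × (Fin k → ℕ → Fin (g+1)) × (Fin k → ℕ) × List (Fin d)),
    conf 0 = (0, fun _ _ => 0, fun _ => 0, []) ∧
    (∀ t : ℕ, conf (t+1) =
      ((δM (conf t).1 (fun j => (conf t).2.1 j ((conf t).2.2.1 j))).1,
        fun j i => if i = (conf t).2.2.1 j
          then (δM (conf t).1 (fun j' => (conf t).2.1 j' ((conf t).2.2.1 j'))).2.1 j
          else (conf t).2.1 j i,
        fun j => (conf t).2.2.1 j
          + ((δM (conf t).1 (fun j' => (conf t).2.1 j' ((conf t).2.2.1 j'))).2.2.1 j : ℕ) - 1,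
        (conf t).2.2.2
          ++ ((δM (conf t).1 (fun j' => (conf t).2.1 j' ((conf t).2.2.1 j'))).2.2.2).toList)) ∧
    (∀ (t i : ℕ) (h : i < (conf t).2.2.2.length), (conf t).2.2.2[i] = w i) ∧
    (∀ n : ℕ, ∃ t : ℕ, n ≤ (conf t).2.2.2.length) ∧
    (∀ n t : ℕ, 1 ≤ n → (∀ t' < t, (conf t').2.2.2.length < n) →
      ∀ j : Fin k, (conf t).2.2.1 j + 1 ≤ s n)

/-- The image of the word `u` under the dgsm with transitions `δ`, initial state `q0` and outputs
`out`. -/
def dgsm {d p : ℕ} (δ : Fin p → Fin d → Fin p) (q0 : Fin p)
    (out : Fin p → Fin d → List (Fin d)) (u : List (Fin d)) : List (Fin d) :=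
  (List.foldl (fun (acc : Fin p × List (Fin d)) (x : Fin d) =>
    (δ acc.1 x, acc.2 ++ out acc.1 x)) (q0, []) u).2

/-- The word `u` is rewritten: a letter `x` with the left neighbour `y` is replaced by the word
`out y x`. The left neighbour of the first letter of `u` is `g`. -/
def rewr {e : ℕ} (out : Fin e → Fin e → List (Fin e)) : Fin e → List (Fin e) → List (Fin e)
  | _, [] => []
  | g, x :: u => out g x ++ rewr out x u

/-- The infinite word `w` is generated by iterating `τ` on the letter `a`: `a` is a prefix of
`τ (a)`, the lengths of the words `τ ^ n (a)` are unbounded, and all these words are prefixes of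
`w`. -/
def Iterates {d : ℕ} (τ : List (Fin d) → List (Fin d)) (a : Fin d) (w : ℕ → Fin d) : Prop :=
  [a] <+: τ [a] ∧ (∀ N : ℕ, ∃ n : ℕ, N ≤ (τ^[n] [a]).length) ∧
    ∀ (n i : ℕ) (h : i < (τ^[n] [a]).length), (τ^[n] [a])[i] = w i

/-- The word `v` is generated by iterating a non-erasing rewriting with one-sided context on a
letter. -/
def ContextWord {e : ℕ} (v : ℕ → Fin e) : Prop :=
  ∃ (out : Fin e → Fin e → List (Fin e)) (g b : Fin e),
    (∀ y x, out y x ≠ []) ∧ Iterates (rewr out g) b v

theorem rewr_eq {e : ℕ} (out : Fin e → Fin e → List (Fin e)) (g : Fin e) :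
    rewr out g = dgsm (fun _ x => x) g out := by
  funext u
  have h1 : ∀ (u : List (Fin e)) (g : Fin e),
      rewr out g u = V8H41.DG.T (fun _ x => x) out g u := by
    intro u
    induction u with
    | nil => intro g; rfl
    | cons x u ih =>
      intro g
      rw [rewr, V8H41.DG.T, ih]
  rw [h1]
  exact (V8H41.DG.dgsm_eq u).symm

theorem result :
    -- every word generated by iterating a dgsm is obtained from a word generated with one-sided
    -- context
    (∀ (d p : ℕ) (δ : Fin p → Fin d → Fin p) (q0 : Fin p) (out : Fin p → Fin d → List (Fin d))
      (a : Fin d) (w : ℕ → Fin d),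
      (∀ s x, out s x ≠ []) → Iterates (dgsm δ q0 out) a w →
      ∃ (e : ℕ) (v : ℕ → Fin e) (h : Fin e → Option (Fin d)) (C : ℕ), ContextWord v ∧
        -- the prefix of length `N` of `v` gives a prefix of `w` of length `ν N`, and
        -- `N ≤ C (ν N + 1) ^ 2`
        (∃ ν : ℕ → ℕ, ∀ N, ((List.range N).map v).filterMap h = (List.range (ν N)).map w ∧
          N ≤ C * (ν N + 1) ^ 2) ∧
        -- so a machine for `v` gives a machine for `w`
        ∀ s : ℕ → ℕ, Generates v s → Generates w (fun n => s (C * n ^ 2 + 1))) ∧
    -- all words generated by iterating dgsm's are in GSPACE (log n) if and only if all words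
    -- generated with one-sided context are
    ((∀ (d p : ℕ) (δ : Fin p → Fin d → Fin p) (q0 : Fin p) (out : Fin p → Fin d → List (Fin d))
        (a : Fin d) (w : ℕ → Fin d),
        (∀ s x, out s x ≠ []) → Iterates (dgsm δ q0 out) a w →
        ∃ C : ℕ, Generates w (fun n => C * (Nat.log 2 n + 1))) ↔
      ∀ (e : ℕ) (v : ℕ → Fin e), ContextWord v →
        ∃ C : ℕ, Generates v (fun n => C * (Nat.log 2 n + 1))) := by
  have key : ∀ (d p : ℕ) (δ : Fin p → Fin d → Fin p) (q0 : Fin p)
      (out : Fin p → Fin d → List (Fin d)) (a : Fin d) (w : ℕ → Fin d),
      (∀ s x, out s x ≠ []) → Iterates (dgsm δ q0 out) a w →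
      ∃ (e : ℕ) (v : ℕ → Fin e) (h : Fin e → Option (Fin d)) (C : ℕ) (ν : ℕ → ℕ),
        ContextWord v ∧ ∀ N, ((List.range N).map v).filterMap h = (List.range (ν N)).map w ∧
          N ≤ C * (ν N + 1) ^ 2 := by
    intro d p δ q0 out a w hne hw
    obtain ⟨e, out', g, b, v, h, C, h1, h2, ν, hν⟩ := V8H44.LC.exists_left (w := w) hne hw
    refine ⟨e, v, h, C, ν, ⟨out', g, b, h1, ?_⟩, hν⟩
    rw [rewr_eq]
    exact h2
  refine ⟨?_, ?_, ?_⟩
  · intro d p δ q0 out a w hne hw
    obtain ⟨e, v, h, C, ν, h1, h2⟩ := key d p δ q0 out a w hne hw
    exact ⟨e, v, h, C, h1, ⟨ν, h2⟩, fun s hs => V8H44.TS.gen_coding h2 hs⟩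
  · intro H e v hv
    obtain ⟨out, g, b, h1, h2⟩ := hv
    rw [rewr_eq] at h2
    exact H e e (fun _ x => x) g out b v h1 h2
  · intro H d p δ q0 out a w hne hw
    obtain ⟨e, v, h, C, ν, h1, h2⟩ := key d p δ q0 out a w hne hw
    obtain ⟨c, hc⟩ := H e v h1
    exact ⟨_, V8H44.TS.gen_log h2 hc⟩

end Pool.Agent.Results.MP_5d512e_lc.LeftContext
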