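import Pool.Agent.V8H44.SG.Small

set_option autoImplicit false

/-!
# Words of slow growth

Q1 asks whether every infinite word generated by iterating a non-erasing dgsm is in GSPACE(log n).
The two extreme growths are easy: exponential growth and growth `n log n`. We show that all the
growths `n ^ (1 + 1 / k)` are as hard as the general case.

Let `k ≥ 1`. Every word `w` generated by iterating a dgsm is obtained from a word `v` generated by
iterating a dgsm of growth at most `C n ^ (1 + 1 / k)`: erase some letters of `v` and rename the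
others. The prefix of `w` of length `n` is obtained from a prefix of `v` of length at most
`C n ^ (k + 1) + 1`. Hence a machine for `v` with working space `s n` gives a machine for `w` with
working space `s (C n ^ (k + 1) + 1)`, and all words generated by iterating dgsm's are in
GSPACE(log n) if and only if this holds for those of growth at most `C n ^ (1 + 1 / k)`.

On the other hand, words of such growth are generated in space `C n ^ (1 / k)`. So, for every
`ε > 0`, the answer to Q1 depends only on words which are in GSPACE(n ^ ε).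

The idea. Instead of rewriting the letters added in the last round, the new dgsm copies them, and
moves a mark by one letter in each copy. It rewrites them when the mark has passed the whole word.
So a round with `x` letters becomes `x + 1` rounds with `x` letters. We start with the growth
`n ^ 2 / 2` and repeat this `k - 1` times.
-/

namespace Pool.Agent.Results.MP_5d512e_lc.SlowGrowth

/-- The infinite word `w` is generated by a deterministic machine with finite control (`m + 1`
states), `k` one-way infinite working tapes with `g + 1` symbols and a write-only output tape, which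
starts with empty tapes, such that every cell visited before `n` letters are written on the output
tape is one of the first `s n` cells of its working tape. In the configuration `conf t`, the
components are the state, the contents of the tapes, the positions of the heads, and the output. -/
def Generates {d : ℕ} (w : ℕ → Fin d) (s : ℕ → ℕ) : Prop :=
  ∃ (m k g : ℕ)
    (δM : Fin (m+1) → (Fin k → Fin (g+1)) →
      Fin (m+1) × (Fin k → Fin (g+1)) × (Fin k → Fin 3) × Option (Fin d))
    (conf : ℕ → Fin (m+1) × (Fin k → ℕ → Fin (g+1)) × (Fin k → ℕ) × List (Fin d)),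
    conf 0 = (0, fun _ _ => 0, fun _ => 0, []) ∧
    (∀ t : ℕ, conf (t+1) =
      ((δM (conf t).1 (fun j => (conf t).2.1 j ((conf t).2.2.1 j))).1,
        fun j i => if i = (conf t).2.2.1 j
          then (δM (conf t).1 (fun j' => (conf t).2.1 j' ((conf t).2.2.1 j'))).2.1 j
          else (conf t).2.1 j i,
        fun j => (conf t).2.2.1 j
          + ((δM (conf t).1 (fun j' => (conf t).2.1 j' ((conf t).2.2.1 j'))).2.2.1 j : ℕ) - 1,
        (conf t).2.2.2
          ++ ((δM (conf t).1 (fun j' => (conf t).2.1 j' ((conf t).2.2.1 j'))).2.2.2).toList)) ∧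
    (∀ (t i : ℕ) (h : i < (conf t).2.2.2.length), (conf t).2.2.2[i] = w i) ∧
    (∀ n : ℕ, ∃ t : ℕ, n ≤ (conf t).2.2.2.length) ∧
    (∀ n t : ℕ, 1 ≤ n → (∀ t' < t, (conf t').2.2.2.length < n) →
      ∀ j : Fin k, (conf t).2.2.1 j + 1 ≤ s n)

/-- The image of the word `u` under the dgsm with transitions `δ`, initial state `q0` and outputs
`out`. -/
def dgsm {d p : ℕ} (δ : Fin p → Fin d → Fin p) (q0 : Fin p)
    (out : Fin p → Fin d → List (Fin d)) (u : List (Fin d)) : List (Fin d) :=
  (List.foldl (fun (acc : Fin p × List (Fin d)) (x : Fin d) =>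
    (δ acc.1 x, acc.2 ++ out acc.1 x)) (q0, []) u).2

/-- The infinite word `w` is generated by iterating `τ` on the letter `a`: `a` is a prefix of
`τ (a)`, the lengths of the words `τ ^ n (a)` are unbounded, and all these words are prefixes of
`w`. -/
def Iterates {d : ℕ} (τ : List (Fin d) → List (Fin d)) (a : Fin d) (w : ℕ → Fin d) : Prop :=
  [a] <+: τ [a] ∧ (∀ N : ℕ, ∃ n : ℕ, N ≤ (τ^[n] [a]).length) ∧
    ∀ (n i : ℕ) (h : i < (τ^[n] [a]).length), (τ^[n] [a])[i] = w i

/-- The word `v` is generated by iterating, on a letter, a non-erasing dgsm of growth at most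
`C ^ (1 / k) (n + 1) ^ (1 + 1 / k)`, for some `C`. -/
def SlowWord (k : ℕ) {e : ℕ} (v : ℕ → Fin e) : Prop :=
  ∃ (p : ℕ) (δ : Fin p → Fin e → Fin p) (q0 : Fin p) (out : Fin p → Fin e → List (Fin e))
    (b : Fin e) (C : ℕ),
    (∀ s x, out s x ≠ []) ∧ Iterates (dgsm δ q0 out) b v ∧
    ∀ n, ((dgsm δ q0 out)^[n] [b]).length ^ k ≤ C * (n + 1) ^ (k + 1)

theorem result : ∀ k : ℕ, 1 ≤ k →
    -- every word generated by iterating a dgsm is obtained from a word `v` of slow growth
    (∀ (d p : ℕ) (δ : Fin p → Fin d → Fin p) (q0 : Fin p) (out : Fin p → Fin d → List (Fin d))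
      (a : Fin d) (w : ℕ → Fin d),
      (∀ s x, out s x ≠ []) → Iterates (dgsm δ q0 out) a w →
      ∃ (e : ℕ) (v : ℕ → Fin e) (h : Fin e → Option (Fin d)) (C : ℕ), SlowWord k v ∧
        -- the prefix of length `N` of `v` gives a prefix of `w` of length `ν N`, and
        -- `N ≤ C (ν N + 1) ^ (k + 1)`
        (∃ ν : ℕ → ℕ, ∀ N, ((List.range N).map v).filterMap h = (List.range (ν N)).map w ∧
          N ≤ C * (ν N + 1) ^ (k + 1)) ∧
        -- so a machine for `v` gives a machine for `w`
        ∀ s : ℕ → ℕ, Generates v s → Generates w (fun n => s (C * n ^ (k + 1) + 1))) ∧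
    -- all words generated by iterating dgsm's are in GSPACE (log n) if and only if all such words
    -- of slow growth are
    ((∀ (d p : ℕ) (δ : Fin p → Fin d → Fin p) (q0 : Fin p) (out : Fin p → Fin d → List (Fin d))
        (a : Fin d) (w : ℕ → Fin d),
        (∀ s x, out s x ≠ []) → Iterates (dgsm δ q0 out) a w →
        ∃ C : ℕ, Generates w (fun n => C * (Nat.log 2 n + 1))) ↔
      ∀ (e : ℕ) (v : ℕ → Fin e), SlowWord k v →
        ∃ C : ℕ, Generates v (fun n => C * (Nat.log 2 n + 1))) ∧
    -- the words of slow growth are generated in space `(C (n + 1)) ^ (1 / k)`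
    ∀ (e : ℕ) (v : ℕ → Fin e), SlowWord k v →
      ∃ (C : ℕ) (f : ℕ → ℕ), (∀ n, f n ^ k ≤ C * (n + 1)) ∧ Generates v f := by
  intro k hk
  obtain ⟨k, rfl⟩ : ∃ j, k = j + 1 := ⟨k - 1, by omega⟩
  have key : ∀ (d p : ℕ) (δ : Fin p → Fin d → Fin p) (q0 : Fin p)
      (out : Fin p → Fin d → List (Fin d)) (a : Fin d) (w : ℕ → Fin d),
      (∀ s x, out s x ≠ []) → Iterates (dgsm δ q0 out) a w →
      ∃ (e : ℕ) (v : ℕ → Fin e) (h : Fin e → Option (Fin d)) (C : ℕ) (ν : ℕ → ℕ),
        SlowWord (k + 1) v ∧
        ∀ N, ((List.range N).map v).filterMap h = (List.range (ν N)).map w ∧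
          N ≤ C * (ν N + 1) ^ (k + 2) := by
    intro d p δ q0 out a w hne hw
    obtain ⟨e, p', δ', q0', out', b, v, h, ν, L, c, h1, h2, h3, h4, h5⟩ :=
      V8H44.SG.exists_slow (w := w) hne hw k
    have hl0 : ((V8H41.DG.dgsm δ' q0' out')^[0] [b]).length = 1 := rfl
    have hls := V8H44.SG.rl_eq h2
    refine ⟨e, v, h, (c + 1) ^ (k + 2), ν, ⟨p', δ', q0', out', b, _, h1, h2,
      h4.growth (gl := fun n => ((V8H41.DG.dgsm δ' q0' out')^[n] [b]).length) hl0 hls⟩,
      fun N => ⟨h3 N, ?_⟩⟩
    refine h4.delay (gl := fun n => ((V8H41.DG.dgsm δ' q0' out')^[n] [b]).length) hl0 hls ?_ h5 N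
    intro N
    obtain ⟨r, hr⟩ := h2.2.1 (N + 1)
    exact ⟨r, hr⟩
  refine ⟨?_, ⟨?_, ?_⟩, ?_⟩
  · intro d p δ q0 out a w hne hw
    obtain ⟨e, v, h, C, ν, h1, h2⟩ := key d p δ q0 out a w hne hw
    exact ⟨e, v, h, C, h1, ⟨ν, h2⟩, fun s hs => V8H44.SG.gen_cod h2 hs⟩
  · intro H e v hv
    obtain ⟨p, δ, q0, out, b, C, h1, h2, _⟩ := hv
    exact H e p δ q0 out b v h1 h2
  · intro H d p δ q0 out a w hne hw
    obtain ⟨e, v, h, C, ν, h1, h2⟩ := key d p δ q0 out a w hne hw
    obtain ⟨c, hc⟩ := H e v h1
    exact ⟨_, V8H44.SG.gen_lg h2 (Nat.succ_pos _) hc⟩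
  · intro e v hv
    obtain ⟨p, δ, q0, out, b, C, h1, h2, h3⟩ := hv
    exact V8H44.SG.small_space h1 h2 h3

end Pool.Agent.Results.MP_5d512e_lc.SlowGrowth
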