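import Pool.Agent.V8H44.TS.Two

set_option autoImplicit false

/-!
# Two states suffice

Q1 asks whether every infinite word generated by iterating a non-erasing dgsm is in GSPACE(log n).
With one state a dgsm is a morphism. We show that two states are already enough for the whole
question, even for the dgsm's which add exactly one letter more in every round than in the round
before (so that the growth is `n ^ 2 / 2`).

Every word `w` generated by iterating a dgsm is obtained from a word `v` generated by such a
two-state dgsm: erase some letters of `v` and rename the others. The prefix of `w` of length `n` is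
obtained from a prefix of `v` of length at most `C n ^ 2 + 1`. So a machine for `v` with working
space `s n` gives a machine for `w` with working space `s (C n ^ 2 + 1)`, and logarithmic space is
transferred.

The idea. The word `w` is written by a process which reads the letters of `w` one by one, has
finitely many states, and writes one letter of `w` in each step. The letters added by the new dgsm in
round `t` are a configuration of this process, of length `L + t`: the letters of `w` written so far,
a mark with the state of the process at the letter which is read, free cells and an end mark. The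
next round rewrites this configuration. One step of the process takes a fixed number of rounds, and
the number of the round within the step (the phase) is stored in all the letters of the
configuration. The state of the dgsm is one bit, carried from the left to the right; it says that a
message is sent, and the contents of the message is the phase in which it is sent.
-/

namespace Pool.Agent.Results.MP_5d512e_lc.TwoStates

/-- The infinite word `w` is generated by a deterministic machine with finite control (`m + 1`
states), `k` one-way infinite working tapes with `g + 1` symbols and a write-only output tape, which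
starts with empty tapes, such that every cell visited before `n` letters are written on the output
tape is one of the first `s n` cells of its working tape. In the configuration `conf t`, the
components are the state, the contents of the tapes, the positions of the heads, and the output. -/
def Generates {d : ℕ} (w : ℕ → Fin d) (s : ℕ → ℕ) : Prop :=
  ∃ (m k g : ℕ)
    (δM : Fin (m+1) → (Fin k → Fin (g+1)) →
      Fin (m+1) × (Fin k → Fin (g+1)) × (Fin k → Fin 3) × Option (Fin d))
    (conf : ℕ → Fin (m+1) × (Fin k → ℕ → Fin (g+1)) × (Fin k → ℕ) × List (Fin d)),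
    conf 0 = (0, fun _ _ => 0, fun _ => 0, []) ∧
    (∀ t : ℕ, conf (t+1) =
      ((δM (conf t).1 (fun j => (conf t).2.1 j ((conf t).2.2.1 j))).1,
        fun j i => if i = (conf t).2.2.1 j
          then (δM (conf t).1 (fun j' => (conf t).2.1 j' ((conf t).2.2.1 j'))).2.1 j
          else (conf t).2.1 j i,
        fun j => (conf t).2.2.1 j
          + ((δM (conf t).1 (fun j' => (conf t).2.1 j' ((conf t).2.2.1 j'))).2.2.1 j : ℕ) - 1,
        (conf t).2.2.2
          ++ ((δM (conf t).1 (fun j' => (conf t).2.1 j' ((conf t).2.2.1 j'))).2.2.2).toList)) ∧
    (∀ (t i : ℕ) (h : i < (conf t).2.2.2.length), (conf t).2.2.2[i] = w i) ∧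
    (∀ n : ℕ, ∃ t : ℕ, n ≤ (conf t).2.2.2.length) ∧
    (∀ n t : ℕ, 1 ≤ n → (∀ t' < t, (conf t').2.2.2.length < n) →
      ∀ j : Fin k, (conf t).2.2.1 j + 1 ≤ s n)

/-- The image of the word `u` under the dgsm with transitions `δ`, initial state `q0` and outputs
`out`. -/
def dgsm {d p : ℕ} (δ : Fin p → Fin d → Fin p) (q0 : Fin p)
    (out : Fin p → Fin d → List (Fin d)) (u : List (Fin d)) : List (Fin d) :=
  (List.foldl (fun (acc : Fin p × List (Fin d)) (x : Fin d) =>
    (δ acc.1 x, acc.2 ++ out acc.1 x)) (q0, []) u).2

/-- The infinite word `w` is generated by iterating `τ` on the letter `a`: `a` is a prefix of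
`τ (a)`, the lengths of the words `τ ^ n (a)` are unbounded, and all these words are prefixes of
`w`. -/
def Iterates {d : ℕ} (τ : List (Fin d) → List (Fin d)) (a : Fin d) (w : ℕ → Fin d) : Prop :=
  [a] <+: τ [a] ∧ (∀ N : ℕ, ∃ n : ℕ, N ≤ (τ^[n] [a]).length) ∧
    ∀ (n i : ℕ) (h : i < (τ^[n] [a]).length), (τ^[n] [a])[i] = w i

/-- The word `v` is generated by iterating, on a letter, a non-erasing dgsm with two states such
that the word `τ ^ (n + 1) (b)` is longer than `τ ^ n (b)` by `L + n` letters for every `n`, for
some `L`. -/
def TwoStateWord {e : ℕ} (v : ℕ → Fin e) : Prop :=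
  ∃ (δ : Fin 2 → Fin e → Fin 2) (out : Fin 2 → Fin e → List (Fin e)) (b : Fin e) (L : ℕ),
    (∀ s x, out s x ≠ []) ∧ Iterates (dgsm δ 0 out) b v ∧
    ∀ n, ((dgsm δ 0 out)^[n + 1] [b]).length = ((dgsm δ 0 out)^[n] [b]).length + (L + n)

theorem result :
    -- every word generated by iterating a dgsm is obtained from a two-state word `v`
    (∀ (d p : ℕ) (δ : Fin p → Fin d → Fin p) (q0 : Fin p) (out : Fin p → Fin d → List (Fin d))
      (a : Fin d) (w : ℕ → Fin d),
      (∀ s x, out s x ≠ []) → Iterates (dgsm δ q0 out) a w →
      ∃ (e : ℕ) (v : ℕ → Fin e) (h : Fin e → Option (Fin d)) (C : ℕ), TwoStateWord v ∧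
        -- the prefix of length `N` of `v` gives a prefix of `w` of length `ν N`, and
        -- `N ≤ C (ν N + 1) ^ 2`
        (∃ ν : ℕ → ℕ, ∀ N, ((List.range N).map v).filterMap h = (List.range (ν N)).map w ∧
          N ≤ C * (ν N + 1) ^ 2) ∧
        -- so a machine for `v` gives a machine for `w`
        ∀ s : ℕ → ℕ, Generates v s → Generates w (fun n => s (C * n ^ 2 + 1))) ∧
    -- all words generated by iterating dgsm's are in GSPACE (log n) if and only if all two-state
    -- words are
    ((∀ (d p : ℕ) (δ : Fin p → Fin d → Fin p) (q0 : Fin p) (out : Fin p → Fin d → List (Fin d))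
        (a : Fin d) (w : ℕ → Fin d),
        (∀ s x, out s x ≠ []) → Iterates (dgsm δ q0 out) a w →
        ∃ C : ℕ, Generates w (fun n => C * (Nat.log 2 n + 1))) ↔
      ∀ (e : ℕ) (v : ℕ → Fin e), TwoStateWord v →
        ∃ C : ℕ, Generates v (fun n => C * (Nat.log 2 n + 1))) := by
  refine ⟨?_, ?_, ?_⟩
  · intro d p δ q0 out a w hne hw
    obtain ⟨e, δ', out', b, v, h, L, C, h1, h2, h3, ν, hν⟩ :=
      V8H44.TS.exists_two (w := w) hne hw
    exact ⟨e, v, h, C, ⟨δ', out', b, L, h1, h2, h3⟩, ⟨ν, hν⟩,
      fun s hs => V8H44.TS.gen_coding hν hs⟩
  · intro H e v hv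
    obtain ⟨δ, out, b, L, h1, h2, h3⟩ := hv
    exact H e 2 δ 0 out b v h1 h2
  · intro H d p δ q0 out a w hne hw
    obtain ⟨e, δ', out', b, v, h, L, C, h1, h2, h3, ν, hν⟩ :=
      V8H44.TS.exists_two (w := w) hne hw
    obtain ⟨c, hc⟩ := H e v ⟨δ', out', b, L, h1, h2, h3⟩
    exact ⟨_, V8H44.TS.gen_log hν hc⟩

end Pool.Agent.Results.MP_5d512e_lc.TwoStates
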